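import Mathlib

/-!
Double stars as subgraphs of complete bipartite graphs.
-/

open Finset

namespace Pool.Agent.Hhelper51.ZeroSum

variable {X Y : Type*}

/-- The double star with centre edge `x y`, further leaves `A` at `y` and `B` at `x`. -/
def dstar (x : X) (y : Y) (A : Finset X) (B : Finset Y) : (completeBipartiteGraph X Y).Subgraph where
  verts := {p | p = Sum.inl x ∨ p = Sum.inr y ∨ (∃ u ∈ A, p = Sum.inl u) ∨ (∃ v ∈ B, p = Sum.inr v)}
  Adj p q := (p = Sum.inl x ∧ ∃ v, (v = y ∨ v ∈ B) ∧ q = Sum.inr v) ∨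
    (q = Sum.inl x ∧ ∃ v, (v = y ∨ v ∈ B) ∧ p = Sum.inr v) ∨
    (p = Sum.inr y ∧ ∃ u, (u = x ∨ u ∈ A) ∧ q = Sum.inl u) ∨
    (q = Sum.inr y ∧ ∃ u, (u = x ∨ u ∈ A) ∧ p = Sum.inl u)
  adj_sub := by
    rintro p q (⟨rfl, v, _, rfl⟩ | ⟨rfl, v, _, rfl⟩ | ⟨rfl, v, _, rfl⟩ | ⟨rfl, v, _, rfl⟩) <;> simp
  edge_vert := by
    rintro p q (⟨rfl, v, _, rfl⟩ | ⟨rfl, v, hv, rfl⟩ | ⟨rfl, v, _, rfl⟩ | ⟨rfl, v, hv, rfl⟩)
    · left; rfl
    · rcases hv with rfl | hv
      · right; left; rfl
      · right; right; right; exact ⟨v, hv, rfl⟩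
    · right; left; rfl
    · rcases hv with rfl | hv
      · left; rfl
      · right; right; left; exact ⟨v, hv, rfl⟩
  symm := ⟨by
    rintro p q (h | h | h | h)
    · right; left; exact h
    · left; exact h
    · right; right; right; exact h
    · right; right; left; exact h⟩

variable [DecidableEq X] [DecidableEq Y]

lemma dstar_edgeSet (x : X) (y : Y) (A : Finset X) (B : Finset Y) :
    (dstar x y A B).edgeSet =
      ↑(insert s(Sum.inl x, Sum.inr y) (A.image (fun u => s(Sum.inl u, Sum.inr y)) ∪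
        B.image (fun v => s(Sum.inl x, Sum.inr v))) : Finset (Sym2 (X ⊕ Y))) := by
  ext e
  induction e with
  | _ p q =>
    rw [SimpleGraph.Subgraph.mem_edgeSet]
    simp only [Finset.coe_insert, Finset.coe_union, Finset.coe_image, Set.mem_insert_iff, Set.mem_union,
      Set.mem_image, Finset.mem_coe]
    constructor
    · rintro (⟨rfl, v, hv, rfl⟩ | ⟨rfl, v, hv, rfl⟩ | ⟨rfl, v, hv, rfl⟩ | ⟨rfl, v, hv, rfl⟩)
      · rcases hv with rfl | hv
        · left; rfl
        · right; right; exact ⟨v, hv, rfl⟩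
      · rcases hv with rfl | hv
        · left; exact Sym2.eq_swap
        · right; right; exact ⟨v, hv, Sym2.eq_swap⟩
      · rcases hv with rfl | hv
        · left; exact Sym2.eq_swap
        · right; left; exact ⟨v, hv, Sym2.eq_swap⟩
      · rcases hv with rfl | hv
        · left; rfl
        · right; left; exact ⟨v, hv, rfl⟩
    · rintro (h | ⟨u, hu, h⟩ | ⟨v, hv, h⟩)
      · rw [Sym2.eq_iff] at h
        rcases h with ⟨rfl, rfl⟩ | ⟨rfl, rfl⟩
        · left; exact ⟨rfl, y, Or.inl rfl, rfl⟩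
        · right; left; exact ⟨rfl, y, Or.inl rfl, rfl⟩
      · rw [Sym2.eq_iff] at h
        rcases h with ⟨rfl, rfl⟩ | ⟨rfl, rfl⟩
        · right; right; right; exact ⟨rfl, u, Or.inr hu, rfl⟩
        · right; right; left; exact ⟨rfl, u, Or.inr hu, rfl⟩
      · rw [Sym2.eq_iff] at h
        rcases h with ⟨rfl, rfl⟩ | ⟨rfl, rfl⟩
        · left; exact ⟨rfl, v, Or.inr hv, rfl⟩
        · right; left; exact ⟨rfl, v, Or.inr hv, rfl⟩

lemma dstar_edge_card (x : X) (y : Y) (A : Finset X) (B : Finset Y) (hx : x ∉ A) (hy : y ∉ B) :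
    (insert s(Sum.inl x, Sum.inr y) (A.image (fun u => s(Sum.inl u, Sum.inr y)) ∪
        B.image (fun v => s(Sum.inl x, Sum.inr v))) : Finset (Sym2 (X ⊕ Y))).card = A.card + B.card + 1 := by
  rw [Finset.card_insert_of_notMem, Finset.card_union_of_disjoint, Finset.card_image_of_injective,
    Finset.card_image_of_injective]
  · intro v v' h
    simpa using h
  · intro u u' h
    simpa using h
  · rw [Finset.disjoint_left]
    intro e he he'
    rw [Finset.mem_image] at he he'
    obtain ⟨u, hu, rfl⟩ := he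
    obtain ⟨v, hv, h⟩ := he'
    simp only [Sym2.eq_iff, Sum.inl.injEq, Sum.inr.injEq, reduceCtorEq, and_self, or_false] at h
    exact hx (h.1 ▸ hu)
  · intro h
    rw [Finset.mem_union, Finset.mem_image, Finset.mem_image] at h
    rcases h with ⟨u, hu, h⟩ | ⟨v, hv, h⟩
    · simp only [Sym2.eq_iff, Sum.inl.injEq, Sum.inr.injEq, reduceCtorEq, and_self, or_false, and_true] at h
      exact hx (h ▸ hu)
    · simp only [Sym2.eq_iff, Sum.inl.injEq, Sum.inr.injEq, reduceCtorEq, and_self, or_false, true_and] at h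
      exact hy (h ▸ hv)

lemma dstar_verts (x : X) (y : Y) (A : Finset X) (B : Finset Y) :
    (dstar x y A B).verts = ↑((insert x A).disjSum (insert y B)) := by
  ext p
  unfold dstar
  rcases p with u | v
  · simp
  · simp

lemma dstar_isTree [Finite X] [Finite Y] (x : X) (y : Y) (A : Finset X) (B : Finset Y) (hx : x ∉ A) (hy : y ∉ B) :
    (dstar x y A B).coe.IsTree := by
  classical
  rw [SimpleGraph.isTree_iff_connected_and_card]
  have hvx : (Sum.inl x : X ⊕ Y) ∈ (dstar x y A B).verts := Or.inl rfl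
  have hvy : (Sum.inr y : X ⊕ Y) ∈ (dstar x y A B).verts := Or.inr (Or.inl rfl)
  constructor
  · have hxy : (dstar x y A B).coe.Adj ⟨Sum.inl x, hvx⟩ ⟨Sum.inr y, hvy⟩ := by
      rw [SimpleGraph.Subgraph.coe_adj]
      left
      exact ⟨rfl, y, Or.inl rfl, rfl⟩
    have hreach : ∀ p : (dstar x y A B).verts, (dstar x y A B).coe.Reachable ⟨Sum.inl x, hvx⟩ p := by
      rintro ⟨p, hp⟩
      rcases hp with rfl | rfl | ⟨u, hu, rfl⟩ | ⟨v, hv, rfl⟩
      · exact SimpleGraph.Reachable.refl _
      · exact hxy.reachable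
      · refine hxy.reachable.trans (SimpleGraph.Adj.reachable ?_)
        rw [SimpleGraph.Subgraph.coe_adj]
        right; right; left
        exact ⟨rfl, u, Or.inr hu, rfl⟩
      · apply SimpleGraph.Adj.reachable
        rw [SimpleGraph.Subgraph.coe_adj]
        left
        exact ⟨rfl, v, Or.inr hv, rfl⟩
    have : Nonempty (dstar x y A B).verts := ⟨⟨Sum.inl x, hvx⟩⟩
    exact SimpleGraph.Connected.mk (fun p q => (hreach p).symm.trans (hreach q))
  · have h1 : Nat.card (dstar x y A B).coe.edgeSet = (dstar x y A B).edgeSet.ncard := by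
      rw [← SimpleGraph.Subgraph.image_coe_edgeSet_coe, Set.ncard_image_of_injective]
      · rfl
      · exact Sym2.map.injective Subtype.val_injective
    have h2 : Nat.card (dstar x y A B).verts = (dstar x y A B).verts.ncard := rfl
    rw [h1, h2, dstar_edgeSet, dstar_verts, Set.ncard_coe_finset, Set.ncard_coe_finset,
      dstar_edge_card x y A B hx hy, Finset.card_disjSum, Finset.card_insert_of_notMem hx,
      Finset.card_insert_of_notMem hy]
    omega

end Pool.Agent.Hhelper51.ZeroSum
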