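import Mathlib

/-!
Additive combinatorics for zero-sum double stars.

Main result `pairing`: let `G` be a finite abelian group of order `N + 1` and `M` a multiset of `2 N` elements such
that every coset of every proper subgroup `H` misses at least `H.index - 1` elements of `M`.
Then every element of `G` is the sum of an `N`-element sub-multiset of `M`.
-/

set_option linter.unusedSectionVars false

open Finset
open scoped Pointwise

namespace Pool.Agent.Hhelper51.ZeroSum

section basic

variable {G : Type*} [AddCommGroup G] [DecidableEq G]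

/-- The stabiliser of a finite set, as a subgroup. -/
def stab (A : Finset G) : AddSubgroup G where
  carrier := {g | ({g} : Finset G) + A = A}
  zero_mem' := by
    show ({0} : Finset G) + A = A
    rw [Finset.singleton_zero, zero_add]
  add_mem' := by
    intro a b ha hb
    show ({a + b} : Finset G) + A = A
    have ha' : ({a} : Finset G) + A = A := ha
    have hb' : ({b} : Finset G) + A = A := hb
    rw [← Finset.singleton_add_singleton, add_assoc, hb', ha']
  neg_mem' := by
    intro a ha
    show ({-a} : Finset G) + A = A
    have ha' : ({a} : Finset G) + A = A := ha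
    calc ({-a} : Finset G) + A = ({-a} : Finset G) + (({a} : Finset G) + A) := by rw [ha']
      _ = A := by
        rw [← add_assoc, Finset.singleton_add_singleton, neg_add_cancel, Finset.singleton_zero, zero_add]

lemma mem_stab {A : Finset G} {g : G} : g ∈ stab A ↔ ({g} : Finset G) + A = A := Iff.rfl

instance decMemStab (A : Finset G) : DecidablePred (fun g => g ∈ stab A) :=
  fun g => decidable_of_iff (({g} : Finset G) + A = A) Iff.rfl

lemma stab_le_add_left (A B : Finset G) : stab A ≤ stab (A + B) := fun g hg => by
  rw [mem_stab] at *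
  rw [← add_assoc, hg]

lemma stab_le_add_right (A B : Finset G) : stab A ≤ stab (B + A) := fun g hg => by
  rw [add_comm]
  exact stab_le_add_left A B hg

lemma card_singleton_add (a : G) (A : Finset G) : (({a} : Finset G) + A).card = A.card := by
  rw [Finset.singleton_add, Finset.card_vadd_finset]

/-- Translates have the same stabiliser. -/
lemma stab_singleton_add (a : G) (A : Finset G) : stab (({a} : Finset G) + A) = stab A := by
  apply le_antisymm
  · intro g hg
    rw [mem_stab] at *
    have h1 : ({-a} : Finset G) + (({g} : Finset G) + (({a} : Finset G) + A)) = ({-a} : Finset G) + (({a} : Finset G) + A) := by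
      rw [hg]
    rw [← add_assoc, ← add_assoc, ← add_assoc, Finset.singleton_add_singleton, Finset.singleton_add_singleton,
      Finset.singleton_add_singleton, neg_add_cancel, Finset.singleton_zero, zero_add] at h1
    have h2 : -a + g + a = g := by abel
    rwa [h2] at h1
  · exact stab_le_add_right A {a}

lemma step {A : Finset G} {u v : G} (h : (({u, v} : Finset G) + A).card ≤ A.card) :
    v - u ∈ stab A := by
  have hu : ({u} : Finset G) + A = ({u, v} : Finset G) + A := by
    apply Finset.eq_of_subset_of_card_le
    · apply Finset.add_subset_add_right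
      simp
    · rw [card_singleton_add]; exact h
  have hv : ({v} : Finset G) + A = ({u, v} : Finset G) + A := by
    apply Finset.eq_of_subset_of_card_le
    · apply Finset.add_subset_add_right
      simp
    · rw [card_singleton_add]; exact h
  rw [mem_stab]
  have h1 : ({v} : Finset G) + A = ({u} : Finset G) + A := by rw [hu, hv]
  calc ({v - u} : Finset G) + A = ({-u} : Finset G) + (({v} : Finset G) + A) := by
        rw [← add_assoc, Finset.singleton_add_singleton]
        congr 2
        abel
    _ = ({-u} : Finset G) + (({u} : Finset G) + A) := by rw [h1]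
    _ = A := by
        rw [← add_assoc, Finset.singleton_add_singleton, neg_add_cancel, Finset.singleton_zero, zero_add]

/-- The sumset of the pairs indexed by `F`. -/
def PS {ι : Type*} (P : ι → G × G) (F : Finset ι) : Finset G :=
  ∑ i ∈ F, ({(P i).1, (P i).2} : Finset G)

variable {ι : Type*} [DecidableEq ι]

lemma PS_erase (P : ι → G × G) {F : Finset ι} {f : ι} (hf : f ∈ F) :
    PS P F = ({(P f).1, (P f).2} : Finset G) + PS P (F.erase f) := by
  unfold PS
  exact (Finset.add_sum_erase F (fun i => ({(P i).1, (P i).2} : Finset G)) hf).symm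

lemma PS_nonempty (P : ι → G × G) (F : Finset ι) : (PS P F).Nonempty := by
  induction F using Finset.induction_on with
  | empty => unfold PS; simp
  | insert a s ha ih =>
    unfold PS at *
    rw [Finset.sum_insert ha]
    apply Finset.Nonempty.add _ ih
    simp

lemma card_le_add_pair (A : Finset G) (u v : G) : A.card ≤ (({u, v} : Finset G) + A).card := by
  calc A.card = (({u} : Finset G) + A).card := (card_singleton_add u A).symm
    _ ≤ _ := by
      apply Finset.card_le_card
      apply Finset.add_subset_add_right
      simp

lemma PS_card_erase_le (P : ι → G × G) (F : Finset ι) (f : ι) :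
    (PS P (F.erase f)).card ≤ (PS P F).card := by
  by_cases hf : f ∈ F
  · rw [PS_erase P hf]
    exact card_le_add_pair _ _ _
  · rw [Finset.erase_eq_of_notMem hf]

lemma stab_PS_erase_le (P : ι → G × G) (F : Finset ι) (f : ι) :
    stab (PS P (F.erase f)) ≤ stab (PS P F) := by
  by_cases hf : f ∈ F
  · rw [PS_erase P hf]
    exact stab_le_add_right _ _
  · rw [Finset.erase_eq_of_notMem hf]

lemma PS_subset_split (P : ι → G × G) {F F' : Finset ι} (h : F ⊆ F') :
    PS P F' = PS P F + PS P (F' \ F) := by
  unfold PS
  rw [add_comm, Finset.sum_sdiff h]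

lemma PS_card_mono (P : ι → G × G) {F F' : Finset ι} (h : F ⊆ F') :
    (PS P F).card ≤ (PS P F').card := by
  rw [PS_subset_split P h]
  exact Finset.card_le_card_add_right (PS_nonempty P _)

lemma stab_PS_mono (P : ι → G × G) {F F' : Finset ι} (h : F ⊆ F') :
    stab (PS P F) ≤ stab (PS P F') := by
  rw [PS_subset_split P h]
  exact stab_le_add_left _ _

/-- If the sumset of the pairs is small then one of the pairs is redundant. -/
lemma surplus (P : ι → G × G) (F : Finset ι) (h : (PS P F).card ≤ F.card) :
    ∃ f ∈ F, (P f).2 - (P f).1 ∈ stab (PS P (F.erase f)) := by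
  induction F using Finset.strongInduction with
  | H F ih =>
    by_cases hF : F = ∅
    · subst hF
      exfalso
      have := (PS_nonempty P ∅).card_pos
      rw [Finset.card_empty] at h
      omega
    · obtain ⟨f, hf⟩ := Finset.nonempty_iff_ne_empty.mpr hF
      by_cases hc : (PS P F).card ≤ (PS P (F.erase f)).card
      · refine ⟨f, hf, ?_⟩
        rw [PS_erase P hf] at hc
        exact step hc
      · push Not at hc
        have h1 : (PS P (F.erase f)).card ≤ (F.erase f).card := by
          rw [Finset.card_erase_of_mem hf]
          omega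
        obtain ⟨f', hf', hs⟩ := ih (F.erase f) (Finset.erase_ssubset hf) h1
        refine ⟨f', Finset.mem_of_mem_erase hf', ?_⟩
        rw [Finset.erase_right_comm] at hs
        exact stab_PS_erase_le P (F.erase f') f hs

end basic

section finite

variable {G : Type*} [AddCommGroup G] [DecidableEq G]

lemma mem_of_sub_mem_stab {T : Finset G} {x t : G} (ht : t ∈ T) (h : x - t ∈ stab T) : x ∈ T := by
  rw [mem_stab] at h
  have h1 : (x - t) + t ∈ ({x - t} : Finset G) + T :=
    Finset.add_mem_add (Finset.mem_singleton_self _) ht
  rw [h] at h1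
  rwa [sub_add_cancel] at h1

lemma sub_mem_stab_iff {T : Finset G} {x t : G} (h : x - t ∈ stab T) : x ∈ T ↔ t ∈ T := by
  constructor
  · intro hx
    apply mem_of_sub_mem_stab hx
    have : t - x = -(x - t) := by abel
    rw [this]
    exact (stab T).neg_mem h
  · intro ht
    exact mem_of_sub_mem_stab ht h

lemma mem_stab_of_forall {T : Finset G} {d : G} (h : ∀ x ∈ T, d + x ∈ T) : d ∈ stab T := by
  rw [mem_stab]
  apply Finset.eq_of_subset_of_card_le
  · intro y hy
    rw [Finset.mem_add] at hy
    obtain ⟨a, ha, b, hb, rfl⟩ := hy
    rw [Finset.mem_singleton] at ha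
    subst ha
    exact h b hb
  · rw [card_singleton_add]

variable [Fintype G]

lemma card_add_stab_le {T : Finset G} (hT : T ≠ Finset.univ) :
    T.card + Nat.card (stab T) ≤ Fintype.card G := by
  classical
  obtain ⟨x, hx⟩ : ∃ x, x ∉ T := by
    by_contra hcon
    push Not at hcon
    exact hT (Finset.eq_univ_iff_forall.mpr hcon)
  have h1 : Nat.card (stab T) ≤ (Tᶜ).card := by
    rw [Nat.card_eq_fintype_card, ← Finset.card_univ]
    apply Finset.card_le_card_of_injOn (fun g : stab T => (g : G) + x)
    · intro g _
      simp only [Finset.coe_compl, Set.mem_compl_iff, Finset.mem_coe]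
      intro hg
      apply hx
      have : (g : G) + x - x ∈ stab T := by
        have : (g : G) + x - x = g := by abel
        rw [this]
        exact g.2
      exact (sub_mem_stab_iff this).mp hg
    · intro a _ b _ hab
      simp only [add_left_inj] at hab
      exact Subtype.ext hab
  have h2 := Finset.card_add_card_compl T
  omega

lemma PS_image {Q : Type*} [AddCommGroup Q] [DecidableEq Q] (π : G →+ Q) {ι : Type*} [DecidableEq ι]
    (P : ι → G × G) (F : Finset ι) :
    (PS P F).image π = PS (fun i => (π (P i).1, π (P i).2)) F := by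
  unfold PS
  induction F using Finset.induction_on with
  | empty =>
    simp only [Finset.sum_empty]
    rw [← Finset.singleton_zero, Finset.image_singleton, map_zero, Finset.singleton_zero]
  | insert a s ha ih =>
    rw [Finset.sum_insert ha, Finset.sum_insert ha, Finset.image_add, ih]
    congr 1
    rw [Finset.image_insert, Finset.image_singleton]

/-- The number of pairs split by the stabiliser of the sumset is small. -/
lemma split_lt {ι : Type*} [DecidableEq ι] [Fintype ι] (P : ι → G × G)
    (hT : PS P Finset.univ ≠ Finset.univ) :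
    (Finset.univ.filter (fun i => (P i).2 - (P i).1 ∉ stab (PS P Finset.univ))).card + 1 <
      (stab (PS P Finset.univ)).index := by
  classical
  set T := PS P Finset.univ with hTdef
  set H := stab T with hH
  set I := Finset.univ.filter (fun i => (P i).2 - (P i).1 ∉ H) with hI
  let π : G →+ G ⧸ H := QuotientAddGroup.mk' H
  have hπ : ∀ x y : G, π x = π y ↔ x - y ∈ H := by
    intro x y
    show (QuotientAddGroup.mk' H) x = (QuotientAddGroup.mk' H) y ↔ _
    rw [QuotientAddGroup.mk'_apply, QuotientAddGroup.mk'_apply, QuotientAddGroup.eq]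
    have : x - y = -(-x + y) := by abel
    rw [this, neg_mem_iff]
  have hmem : ∀ x, π x ∈ T.image π → x ∈ T := by
    intro x hx
    rw [Finset.mem_image] at hx
    obtain ⟨t, ht, htx⟩ := hx
    exact mem_of_sub_mem_stab ht ((hπ x t).mp htx.symm)
  have hTbar : T.image π ≠ Finset.univ := by
    intro hcon
    apply hT
    rw [Finset.eq_univ_iff_forall]
    intro x
    apply hmem
    rw [hcon]
    exact Finset.mem_univ _
  have hcard : (T.image π).card < H.index := by
    rw [AddSubgroup.index, Nat.card_eq_fintype_card]
    obtain ⟨x, hx⟩ : ∃ x, x ∉ T.image π := by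
      by_contra hcon
      push Not at hcon
      exact hTbar (Finset.eq_univ_iff_forall.mpr hcon)
    exact Finset.card_lt_univ_of_notMem hx
  by_contra hcon
  have hcon' : (T.image π).card ≤ I.card := by
    have hidx : (stab T).index = H.index := rfl
    omega
  set P' : ι → (G ⧸ H) × (G ⧸ H) := fun i => (π (P i).1, π (P i).2) with hP'
  have hTimg : T.image π = PS P' Finset.univ := PS_image π P Finset.univ
  have h1 : (PS P' I).card ≤ I.card := by
    calc (PS P' I).card ≤ (PS P' Finset.univ).card := PS_card_mono P' (Finset.subset_univ _)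
      _ ≤ _ := by rw [← hTimg]; exact hcon'
  obtain ⟨f, hf, hs⟩ := surplus P' I h1
  have h2 : (P' f).2 - (P' f).1 ∈ stab (PS P' Finset.univ) := stab_PS_mono P' (Finset.subset_univ _) hs
  rw [← hTimg] at h2
  have h3 : (P' f).2 - (P' f).1 = π ((P f).2 - (P f).1) := by
    simp [hP']
  rw [h3] at h2
  have h4 : (P f).2 - (P f).1 ∈ H := by
    apply mem_stab_of_forall
    intro x hx
    apply hmem
    rw [map_add]
    rw [mem_stab] at h2
    rw [← h2]
    exact Finset.add_mem_add (Finset.mem_singleton_self _) (Finset.mem_image_of_mem _ hx)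
  rw [hI, Finset.mem_filter] at hf
  exact hf.2 h4

/-- Every multiset of `2 N` elements can be cut into `N` pairs. -/
lemma exists_pairs (N : ℕ) (M : Multiset G) (hM : M.card = 2 * N) :
    ∃ P : Fin N → G × G, ∑ i, ({(P i).1, (P i).2} : Multiset G) = M := by
  induction N generalizing M with
  | zero =>
    refine ⟨Fin.elim0, ?_⟩
    simp at hM
    simp [hM]
  | succ N ih =>
    obtain ⟨a, M1, rfl⟩ : ∃ a M1, M = a ::ₘ M1 := by
      have : M ≠ 0 := by
        rintro rfl
        simp at hM
      obtain ⟨a, ha⟩ := Multiset.exists_mem_of_ne_zero this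
      exact ⟨a, M.erase a, (Multiset.cons_erase ha).symm⟩
    obtain ⟨b, M2, rfl⟩ : ∃ b M2, M1 = b ::ₘ M2 := by
      have : M1 ≠ 0 := by
        rintro rfl
        simp at hM
        omega
      obtain ⟨a, ha⟩ := Multiset.exists_mem_of_ne_zero this
      exact ⟨a, M1.erase a, (Multiset.cons_erase ha).symm⟩
    have hM2 : M2.card = 2 * N := by
      simp only [Multiset.card_cons] at hM
      omega
    obtain ⟨P, hP⟩ := ih M2 hM2
    refine ⟨Fin.cons (a, b) P, ?_⟩
    rw [Fin.sum_univ_succ]
    simp only [Fin.cons_zero, Fin.cons_succ]
    rw [hP]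
    simp [Multiset.insert_eq_cons]

end finite

section main

variable {G : Type*} [AddCommGroup G] [DecidableEq G] [Fintype G]

/-- Number of pairs of `P` split by the stabiliser of the full sumset. -/
def rho {N : ℕ} (P : Fin N → G × G) : ℕ :=
  (Finset.univ.filter (fun i => (P i).2 - (P i).1 ∉ stab (PS P Finset.univ))).card

lemma rho_le {N : ℕ} (P : Fin N → G × G) : rho P ≤ N := by
  unfold rho
  calc _ ≤ (Finset.univ : Finset (Fin N)).card := Finset.card_le_card (Finset.filter_subset _ _)
    _ = N := by simp

/-- The potential which we maximise. -/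
def mu {N : ℕ} (P : Fin N → G × G) : ℕ := (PS P Finset.univ).card * (N + 1) + rho P

/-- Exchange step. -/
lemma exchange {N : ℕ} (M : Multiset G) (P : Fin N → G × G)
    (hP : ∑ i, ({(P i).1, (P i).2} : Multiset G) = M)
    (hmax : ∀ P' : Fin N → G × G, ∑ i, ({(P' i).1, (P' i).2} : Multiset G) = M → mu P' ≤ mu P)
    {f g : Fin N} (hfg : f ≠ g)
    (hs : (P f).2 - (P f).1 ∈ stab (PS P ((Finset.univ.erase g).erase f))) :
    (P f).1 - (P g).1 ∈ stab (PS P Finset.univ) ∨ (P f).1 - (P g).2 ∈ stab (PS P Finset.univ) := by
  classical
  by_contra hcon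
  push Not at hcon
  obtain ⟨hc1, hc2⟩ := hcon
  set w := (P f).1 with hw
  set z := (P f).2 with hz
  set u := (P g).1 with hu
  set v := (P g).2 with hv
  set R := PS P ((Finset.univ.erase g).erase f) with hR
  set P' : Fin N → G × G := Function.update (Function.update P f (u, w)) g (v, z) with hP'
  have hP'f : P' f = (u, w) := by
    rw [hP', Function.update_of_ne hfg, Function.update_self]
  have hP'g : P' g = (v, z) := by
    rw [hP', Function.update_self]
  have hP'o : ∀ i, i ≠ f → i ≠ g → P' i = P i := by
    intro i hif hig
    rw [hP', Function.update_of_ne hig, Function.update_of_ne hif]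
  have hgm : g ∈ (Finset.univ : Finset (Fin N)) := Finset.mem_univ g
  have hfm : f ∈ (Finset.univ : Finset (Fin N)).erase g := Finset.mem_erase.mpr ⟨hfg, Finset.mem_univ f⟩
  have hR' : PS P' ((Finset.univ.erase g).erase f) = R := by
    rw [hR]
    unfold PS
    apply Finset.sum_congr rfl
    intro i hi
    rw [Finset.mem_erase, Finset.mem_erase] at hi
    rw [hP'o i hi.1 hi.2.1]
  have hT : PS P Finset.univ = ({u, v} : Finset G) + (({w, z} : Finset G) + R) := by
    rw [PS_erase P hgm, PS_erase P hfm]
  have hT' : PS P' Finset.univ = ({v, z} : Finset G) + (({u, w} : Finset G) + R) := by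
    rw [PS_erase P' hgm, PS_erase P' hfm, hR', hP'f, hP'g]
  have hRz : ({z} : Finset G) + R = ({w} : Finset G) + R := by
    rw [mem_stab] at hs
    calc ({z} : Finset G) + R = ({w} : Finset G) + (({z - w} : Finset G) + R) := by
          rw [← add_assoc, Finset.singleton_add_singleton]
          congr 2
          abel
      _ = _ := by rw [hs]
  have hwzR : ({w, z} : Finset G) + R = ({w} : Finset G) + R := by
    have : ({w, z} : Finset G) = {w} ∪ {z} := rfl
    rw [this, Finset.union_add, hRz, Finset.union_idempotent]
  have hsub : PS P Finset.univ ⊆ PS P' Finset.univ := by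
    rw [hT, hT', hwzR]
    have h1 : ({u, v} : Finset G) + (({w} : Finset G) + R) =
        (({u} : Finset G) + (({w} : Finset G) + R)) ∪ (({v} : Finset G) + (({w} : Finset G) + R)) := by
      have : ({u, v} : Finset G) = {u} ∪ {v} := rfl
      rw [this, Finset.union_add]
    rw [h1]
    apply Finset.union_subset
    · calc ({u} : Finset G) + (({w} : Finset G) + R) = ({z} : Finset G) + (({u} : Finset G) + R) := by
            rw [← hRz]
            exact add_left_comm _ _ _
        _ ⊆ _ := by
            apply Finset.add_subset_add
            · simp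
            · apply Finset.add_subset_add_right
              simp
    · apply Finset.add_subset_add
      · simp
      · apply Finset.add_subset_add_right
        simp
  have hM' : ∑ i, ({(P' i).1, (P' i).2} : Multiset G) = M := by
    rw [← hP]
    rw [← Finset.add_sum_erase _ (fun i => ({(P' i).1, (P' i).2} : Multiset G)) hgm,
      ← Finset.add_sum_erase _ (fun i => ({(P i).1, (P i).2} : Multiset G)) hgm,
      ← Finset.add_sum_erase _ (fun i => ({(P' i).1, (P' i).2} : Multiset G)) hfm,
      ← Finset.add_sum_erase _ (fun i => ({(P i).1, (P i).2} : Multiset G)) hfm]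
    have hrest : ∑ i ∈ (Finset.univ.erase g).erase f, ({(P' i).1, (P' i).2} : Multiset G) =
        ∑ i ∈ (Finset.univ.erase g).erase f, ({(P i).1, (P i).2} : Multiset G) := by
      apply Finset.sum_congr rfl
      intro i hi
      rw [Finset.mem_erase, Finset.mem_erase] at hi
      rw [hP'o i hi.1 hi.2.1]
    rw [hrest, ← add_assoc, ← add_assoc]
    congr 1
    rw [hP'f, hP'g]
    show ({v, z} : Multiset G) + {u, w} = {u, v} + {w, z}
    simp only [Multiset.insert_eq_cons, ← Multiset.singleton_add]
    abel
  have hmu := hmax P' hM'
  have hcardle : (PS P Finset.univ).card ≤ (PS P' Finset.univ).card := Finset.card_le_card hsub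
  have hcardeq : (PS P' Finset.univ).card ≤ (PS P Finset.univ).card := by
    by_contra hlt
    push Not at hlt
    have h1 := rho_le P
    unfold mu at hmu
    have h2 : ((PS P Finset.univ).card + 1) * (N + 1) ≤ (PS P' Finset.univ).card * (N + 1) :=
      Nat.mul_le_mul_right _ hlt
    nlinarith
  have hTeq : PS P Finset.univ = PS P' Finset.univ := Finset.eq_of_subset_of_card_le hsub hcardeq
  have hrho : rho P' ≤ rho P := by
    unfold mu at hmu
    rw [← hTeq] at hmu
    omega
  have hzw : z - w ∈ stab (PS P Finset.univ) := by
    apply stab_PS_mono P _ hs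
    intro i _
    exact Finset.mem_univ i
  have hrho' : rho P + 1 ≤ rho P' := by
    unfold rho
    rw [← hTeq]
    have hfnot : f ∉ Finset.univ.filter (fun i => (P i).2 - (P i).1 ∉ stab (PS P Finset.univ)) := by
      rw [Finset.mem_filter]
      push Not
      intro _
      exact hzw
    rw [← Finset.card_insert_of_notMem hfnot]
    apply Finset.card_le_card
    intro i hi
    rw [Finset.mem_insert, Finset.mem_filter] at hi
    rw [Finset.mem_filter]
    refine ⟨Finset.mem_univ _, ?_⟩
    by_cases hif : i = f
    · subst hif
      rw [hP'f]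
      exact hc1
    · by_cases hig : i = g
      · subst hig
        rw [hP'g]
        show z - v ∉ _
        intro hzv
        apply hc2
        have : w - v = (z - v) - (z - w) := by abel
        rw [this]
        exact sub_mem hzv hzw
      · rw [hP'o i hif hig]
        rcases hi with hi | hi
        · exact absurd hi hif
        · exact hi.2
  omega

open Classical in
/-- The number of elements of `M` outside the coset `q + H`. -/
noncomputable def miss (M : Multiset G) (H : AddSubgroup G) (q : G) : ℕ :=
  M.countP (fun m => m - q ∉ H)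

/-- Every coset of every proper subgroup `H` misses at least `H.index - 1` elements of `M`. -/
def Spread (M : Multiset G) : Prop :=
  ∀ H : AddSubgroup G, H ≠ ⊤ → ∀ q : G, H.index ≤ miss M H q + 1

theorem pairing {N : ℕ} (hG : Fintype.card G = N + 1) (M : Multiset G) (hM : M.card = 2 * N)
    (hS : Spread M) :
    ∃ P : Fin N → G × G, ∑ i, ({(P i).1, (P i).2} : Multiset G) = M ∧ PS P Finset.univ = Finset.univ := by
  classical
  obtain ⟨P, hPmem, hPmax⟩ := Finset.exists_max_image
    (Finset.univ.filter (fun P : Fin N → G × G => ∑ i, ({(P i).1, (P i).2} : Multiset G) = M)) mu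
    (by
      obtain ⟨P, hP⟩ := exists_pairs N M hM
      exact ⟨P, Finset.mem_filter.mpr ⟨Finset.mem_univ _, hP⟩⟩)
  rw [Finset.mem_filter] at hPmem
  have hP := hPmem.2
  have hmax : ∀ P' : Fin N → G × G, ∑ i, ({(P' i).1, (P' i).2} : Multiset G) = M → mu P' ≤ mu P :=
    fun P' hP' => hPmax P' (Finset.mem_filter.mpr ⟨Finset.mem_univ _, hP'⟩)
  refine ⟨P, hP, ?_⟩
  by_contra hT
  set T := PS P Finset.univ with hTdef
  set H := stab T with hH
  have hcardH : T.card + Nat.card H ≤ N + 1 := by
    rw [← hG]
    exact card_add_stab_le hT
  have hrho : rho P + 1 < H.index := split_lt P hT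
  have hLag : Nat.card H * H.index = N + 1 := by
    rw [AddSubgroup.card_mul_index, Nat.card_eq_fintype_card, hG]
  have hhpos : 1 ≤ Nat.card H := Nat.card_pos
  have hkle : H.index ≤ N + 1 := by
    rw [← hLag]
    exact Nat.le_mul_of_pos_left _ hhpos
  have hrhoN : rho P < N := by omega
  have hex := fun {f g : Fin N} (hfg : f ≠ g)
    (hs : (P f).2 - (P f).1 ∈ stab (PS P ((Finset.univ.erase g).erase f))) =>
    exchange M P hP hmax hfg hs
  -- an exchange partner which is unsplit lies in the same coset
  have hex2 : ∀ {f g : Fin N}, f ≠ g → (P g).2 - (P g).1 ∈ H →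
      (P f).2 - (P f).1 ∈ stab (PS P ((Finset.univ.erase g).erase f)) → (P f).1 - (P g).1 ∈ H := by
    intro f g hfg hg hs
    rcases hex hfg hs with h | h
    · exact h
    · have : (P f).1 - (P g).1 = ((P f).1 - (P g).2) + ((P g).2 - (P g).1) := by abel
      rw [this]
      exact add_mem h hg
  have hcardU : (Finset.univ : Finset (Fin N)).card = N := by simp
  have htriv : Nat.card H = 1 → ∀ d ∈ H, d = 0 := by
    intro h1 d hd
    have : H = ⊥ := AddSubgroup.eq_bot_of_card_eq H h1
    rw [this] at hd
    exact (AddSubgroup.mem_bot).mp hd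
  have c2 : ∀ g1 g2 : Fin N, g1 ≠ g2 → (P g1).2 - (P g1).1 ∈ H → (P g2).2 - (P g2).1 ∈ H →
      (P g1).1 - (P g2).1 ∈ H := by
    intro g1 g2 hne hd1 hd2
    by_cases h1 : Nat.card H = 1
    · apply hex2 hne hd2
      rw [htriv h1 _ hd1]
      exact zero_mem _
    · have h2 : 2 ≤ Nat.card H := by omega
      have hcF : ((Finset.univ.erase g2).erase g1).card = N - 1 - 1 := by
        rw [Finset.card_erase_of_mem (Finset.mem_erase.mpr ⟨hne, Finset.mem_univ _⟩),
          Finset.card_erase_of_mem (Finset.mem_univ _), hcardU]
      by_cases hc : (PS P ((Finset.univ.erase g2).erase g1)).card ≤ ((Finset.univ.erase g2).erase g1).card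
      · obtain ⟨f, hf, hfs⟩ := surplus P _ hc
        rw [Finset.mem_erase, Finset.mem_erase] at hf
        have hf1 : (P f).1 - (P g1).1 ∈ H := by
          apply hex2 hf.1 hd1
          apply stab_PS_mono P _ hfs
          intro i hi
          rw [Finset.mem_erase, Finset.mem_erase, Finset.mem_erase] at hi
          rw [Finset.mem_erase, Finset.mem_erase]
          exact ⟨hi.1, hi.2.1, Finset.mem_univ _⟩
        have hf2 : (P f).1 - (P g2).1 ∈ H := by
          apply hex2 hf.2.1 hd2
          apply stab_PS_mono P _ hfs
          intro i hi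
          rw [Finset.mem_erase, Finset.mem_erase, Finset.mem_erase] at hi
          rw [Finset.mem_erase, Finset.mem_erase]
          exact ⟨hi.1, hi.2.2.1, Finset.mem_univ _⟩
        have : (P g1).1 - (P g2).1 = ((P f).1 - (P g2).1) - ((P f).1 - (P g1).1) := by abel
        rw [this]
        exact sub_mem hf2 hf1
      · push Not at hc
        rw [hcF] at hc
        apply hex2 hne hd2
        apply step
        have hTe : (({(P g1).1, (P g1).2} : Finset G) + PS P ((Finset.univ.erase g2).erase g1)) =
            PS P (Finset.univ.erase g2) :=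
          (PS_erase P (Finset.mem_erase.mpr ⟨hne, Finset.mem_univ _⟩)).symm
        rw [hTe]
        have h3 : (PS P (Finset.univ.erase g2)).card ≤ T.card := PS_card_erase_le P _ _
        omega
  obtain ⟨g0, hg0⟩ : ∃ g0 : Fin N, (P g0).2 - (P g0).1 ∈ H := by
    by_contra hcon
    push Not at hcon
    have : rho P = N := by
      unfold rho
      rw [Finset.filter_true_of_mem (fun i _ => hcon i), hcardU]
    omega
  have c1 : ∀ g : Fin N, (P g).2 - (P g).1 ∉ H →
      ∃ f, f ≠ g ∧ (P f).2 - (P f).1 ∈ stab (PS P ((Finset.univ.erase g).erase f)) := by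
    intro g hg
    by_cases h1 : Nat.card H = 1
    · refine ⟨g0, ?_, ?_⟩
      · rintro rfl
        exact hg hg0
      · rw [htriv h1 _ hg0]
        exact zero_mem _
    · have hcE : ((Finset.univ : Finset (Fin N)).erase g).card = N - 1 := by
        rw [Finset.card_erase_of_mem (Finset.mem_univ _), hcardU]
      have h3 : (PS P (Finset.univ.erase g)).card ≤ T.card := PS_card_erase_le P _ _
      obtain ⟨f, hf, hfs⟩ := surplus P (Finset.univ.erase g) (by omega)
      exact ⟨f, (Finset.mem_erase.mp hf).1, hfs⟩
  set w0 := (P g0).1 with hw0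
  have hun : ∀ i : Fin N, (P i).2 - (P i).1 ∈ H → (P i).1 - w0 ∈ H ∧ (P i).2 - w0 ∈ H := by
    intro i hi
    have h1 : (P i).1 - w0 ∈ H := by
      by_cases hi0 : i = g0
      · subst hi0
        rw [sub_self]
        exact zero_mem _
      · exact c2 i g0 hi0 hi hg0
    refine ⟨h1, ?_⟩
    have : (P i).2 - w0 = ((P i).2 - (P i).1) + ((P i).1 - w0) := by abel
    rw [this]
    exact add_mem hi h1
  have hsp : ∀ i : Fin N, (P i).2 - (P i).1 ∉ H → (P i).1 - w0 ∈ H ∨ (P i).2 - w0 ∈ H := by
    intro i hi
    obtain ⟨f, hfi, hfs⟩ := c1 i hi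
    have hfH : (P f).2 - (P f).1 ∈ H := by
      apply stab_PS_mono P _ hfs
      intro j _
      exact Finset.mem_univ j
    have hf0 := (hun f hfH).1
    rcases hex hfi hfs with h | h
    · left
      have : (P i).1 - w0 = ((P f).1 - w0) - ((P f).1 - (P i).1) := by abel
      rw [this]
      exact sub_mem hf0 h
    · right
      have : (P i).2 - w0 = ((P f).1 - w0) - ((P f).1 - (P i).2) := by abel
      rw [this]
      exact sub_mem hf0 h
  have hmiss : miss M H w0 ≤ rho P := by
    unfold miss
    rw [← hP, ← Multiset.coe_countPAddMonoidHom, map_sum]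
    unfold rho
    rw [Finset.card_filter]
    apply Finset.sum_le_sum
    intro i _
    rw [Multiset.coe_countPAddMonoidHom]
    by_cases hi : (P i).2 - (P i).1 ∈ H
    · obtain ⟨h1, h2⟩ := hun i hi
      simp only [Multiset.insert_eq_cons, Multiset.countP_cons]
      rw [← Multiset.cons_zero, Multiset.countP_cons]
      simp [h1, h2]
    · rw [if_pos hi]
      rcases hsp i hi with h1 | h1
      · simp only [Multiset.insert_eq_cons, Multiset.countP_cons]
        rw [← Multiset.cons_zero, Multiset.countP_cons]
        simp [h1]
        split_ifs <;> omega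
      · simp only [Multiset.insert_eq_cons, Multiset.countP_cons]
        rw [← Multiset.cons_zero, Multiset.countP_cons]
        simp [h1]
        split_ifs <;> omega
  have hHtop : H ≠ ⊤ := by
    intro h
    rw [h, AddSubgroup.index_top] at hrho
    omega
  have := hS H hHtop w0
  omega

end main

end Pool.Agent.Hhelper51.ZeroSum
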