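import Mathlib
import Pool.Agent.Hhelper51.ZeroSumPairs

/-!
From the pairing lemma to sub-multiset sums in a finite abelian group.
-/

set_option linter.unusedSectionVars false

open Finset
open scoped Pointwise

namespace Pool.Agent.Hhelper51.ZeroSum

section choose

variable {G : Type*} [AddCommGroup G] [DecidableEq G]

lemma mem_PS {ι : Type*} [DecidableEq ι] (P : ι → G × G) (F : Finset ι) (t : G) (ht : t ∈ PS P F) :
    ∃ g : ι → G, (∀ i, g i = (P i).1 ∨ g i = (P i).2) ∧ ∑ i ∈ F, g i = t := by
  induction F using Finset.induction_on generalizing t with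
  | empty =>
    refine ⟨fun i => (P i).1, fun i => Or.inl rfl, ?_⟩
    unfold PS at ht
    rw [Finset.sum_empty, Finset.mem_zero] at ht
    rw [Finset.sum_empty, ht]
  | insert a s ha ih =>
    unfold PS at ht
    rw [Finset.sum_insert ha, Finset.mem_add] at ht
    obtain ⟨x, hx, y, hy, rfl⟩ := ht
    obtain ⟨g, hg, hgs⟩ := ih y hy
    refine ⟨Function.update g a x, ?_, ?_⟩
    · intro i
      by_cases hia : i = a
      · subst hia
        rw [Function.update_self]
        rw [Finset.mem_insert, Finset.mem_singleton] at hx
        exact hx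
      · rw [Function.update_of_ne hia]
        exact hg i
    · rw [Finset.sum_insert ha, Function.update_self, ← hgs]
      congr 1
      apply Finset.sum_congr rfl
      intro i hi
      rw [Function.update_of_ne]
      rintro rfl
      exact ha hi

variable [Fintype G]

theorem pairing_sum {N : ℕ} (hG : Fintype.card G = N + 1) (M : Multiset G) (hM : M.card = 2 * N)
    (hS : Spread M) (t : G) : ∃ K ≤ M, K.card = N ∧ K.sum = t := by
  obtain ⟨P, hP, hT⟩ := pairing hG M hM hS
  obtain ⟨g, hg, hgs⟩ := mem_PS P Finset.univ t (by rw [hT]; exact Finset.mem_univ _)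
  refine ⟨∑ i : Fin N, ({g i} : Multiset G), ?_, ?_, ?_⟩
  · rw [← hP]
    apply Finset.sum_le_sum
    intro i _
    rw [Multiset.singleton_le]
    rcases hg i with h | h <;> rw [h] <;> simp
  · rw [Multiset.card_sum]
    simp
  · rw [← hgs]
    show Multiset.sumAddMonoidHom _ = _
    rw [map_sum]
    simp

lemma two_index_le {K H : AddSubgroup G} (h : K ≤ H) (hne : ¬ H ≤ K) : 2 * H.index ≤ K.index := by
  have h1 := AddSubgroup.relIndex_mul_index h
  have h2 : K.relIndex H ≠ 1 := by
    intro h3
    exact hne (AddSubgroup.relIndex_eq_one.mp h3)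
  have h3 : K.index ≠ 0 := AddSubgroup.index_ne_zero_of_finite
  have h4 : K.relIndex H ≠ 0 := by
    intro h5
    rw [h5, zero_mul] at h1
    exact h3 h1.symm
  rw [← h1]
  apply Nat.mul_le_mul_right
  omega

lemma index_add_le {H1 H2 : AddSubgroup G} (h12 : ¬ H1 ≤ H2) (h21 : ¬ H2 ≤ H1) :
    H1.index + H2.index ≤ (H1 ⊓ H2).index := by
  have h1 : 2 * H1.index ≤ (H1 ⊓ H2).index :=
    two_index_le inf_le_left (fun h => h12 (h.trans inf_le_right))
  have h2 : 2 * H2.index ≤ (H1 ⊓ H2).index :=
    two_index_le inf_le_right (fun h => h21 (h.trans inf_le_left))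
  omega

lemma miss_le_of_le {M M' : Multiset G} (h : M ≤ M') (H : AddSubgroup G) (q : G) :
    miss M H q ≤ miss M' H q := by
  classical
  unfold miss
  exact Multiset.countP_le_of_le _ h

lemma miss_mono {M : Multiset G} {H H' : AddSubgroup G} (h : H ≤ H') {q q' : G} (hq : q - q' ∈ H') :
    miss M H' q' ≤ miss M H q := by
  classical
  unfold miss
  rw [Multiset.countP_eq_card_filter, Multiset.countP_eq_card_filter]
  apply Multiset.card_le_card
  apply Multiset.monotone_filter_right
  intro m hm hm'
  apply hm
  have : m - q' = (m - q) + (q - q') := by abel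
  rw [this]
  exact add_mem (h hm') hq

lemma miss_inf_le (M : Multiset G) (H1 H2 : AddSubgroup G) (q1 q2 m : G) (h1 : m - q1 ∈ H1)
    (h2 : m - q2 ∈ H2) : miss M (H1 ⊓ H2) m ≤ miss M H1 q1 + miss M H2 q2 := by
  classical
  unfold miss
  induction M using Multiset.induction_on with
  | empty => simp
  | cons a s ih =>
    rw [Multiset.countP_cons, Multiset.countP_cons, Multiset.countP_cons]
    have key : a - m ∉ H1 ⊓ H2 → (a - q1 ∉ H1 ∨ a - q2 ∉ H2) := by
      intro h
      by_contra hcon
      push Not at hcon
      apply h
      rw [AddSubgroup.mem_inf]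
      constructor
      · have : a - m = (a - q1) - (m - q1) := by abel
        rw [this]
        exact sub_mem hcon.1 h1
      · have : a - m = (a - q2) - (m - q2) := by abel
        rw [this]
        exact sub_mem hcon.2 h2
    by_cases ha : a - m ∉ H1 ⊓ H2
    · rw [if_pos ha]
      rcases key ha with h | h
      · rw [if_pos h]
        split_ifs <;> omega
      · rw [if_pos h]
        split_ifs <;> omega
    · rw [if_neg ha]
      split_ifs <;> omega

/-- Two cosets which together miss fewer than `M.card` elements have a common element of `M`. -/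
lemma exists_common (M : Multiset G) (H1 H2 : AddSubgroup G) (q1 q2 : G)
    (h : miss M H1 q1 + miss M H2 q2 < M.card) : ∃ m ∈ M, m - q1 ∈ H1 ∧ m - q2 ∈ H2 := by
  classical
  by_contra hcon
  push Not at hcon
  have : M.card ≤ miss M H1 q1 + miss M H2 q2 := by
    clear h
    unfold miss
    induction M using Multiset.induction_on with
    | empty => simp
    | cons a s ih =>
      have ih' := ih (fun m hm => hcon m (Multiset.mem_cons_of_mem hm))
      rw [Multiset.countP_cons, Multiset.countP_cons, Multiset.card_cons]
      by_cases ha : a - q1 ∈ H1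
      · have hb := hcon a (Multiset.mem_cons_self a s) ha
        rw [if_pos hb]
        split_ifs <;> omega
      · rw [if_pos ha]
        split_ifs <;> omega
  omega

lemma miss_erase_of_mem (M : Multiset G) (H : AddSubgroup G) (q z : G) (hz : z ∈ M) (h : z - q ∈ H) :
    miss (M.erase z) H q = miss M H q := by
  classical
  conv_rhs => rw [← Multiset.cons_erase hz]
  unfold miss
  rw [Multiset.countP_cons, if_neg (by simpa using h), add_zero]

lemma miss_erase_ge (M : Multiset G) (H : AddSubgroup G) (q z : G) (hz : z ∈ M) :
    miss M H q ≤ miss (M.erase z) H q + 1 := by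
  classical
  conv_lhs => rw [← Multiset.cons_erase hz]
  unfold miss
  rw [Multiset.countP_cons]
  split_ifs <;> omega

theorem select {N : ℕ} (hG : Fintype.card G = N + 1) (d : ℕ) (M : Multiset G) (hM : M.card = 2 * N + d)
    (hS : Spread M) : ∃ M0 ≤ M, M0.card = 2 * N ∧ Spread M0 := by
  classical
  induction d generalizing M with
  | zero => exact ⟨M, le_rfl, by simpa using hM, hS⟩
  | succ d ih =>
    suffices h : ∃ z ∈ M, Spread (M.erase z) by
      obtain ⟨z, hz, hSz⟩ := h
      have hc : (M.erase z).card = 2 * N + d := by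
        rw [Multiset.card_erase_of_mem hz, Nat.pred_eq_sub_one]
        omega
      obtain ⟨M0, hM0, hc0, hS0⟩ := ih (M.erase z) hc hSz
      exact ⟨M0, hM0.trans (Multiset.erase_le z M), hc0, hS0⟩
    have hidx : ∀ H : AddSubgroup G, H.index ≤ N + 1 := by
      intro H
      rw [← hG, ← Nat.card_eq_fintype_card]
      exact Nat.le_of_dvd Nat.card_pos (AddSubgroup.index_dvd_card H)
    by_cases htight : ∃ n : ℕ, ∃ H : AddSubgroup G, ∃ q : G, Nat.card H = n ∧ H ≠ ⊤ ∧ miss M H q + 1 = H.index
    · obtain ⟨H0, q0, hn, hH0, ht0⟩ := Nat.find_spec htight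
      have hmin : ∀ (H : AddSubgroup G) (q : G), H ≠ ⊤ → miss M H q + 1 = H.index → Nat.card H0 ≤ Nat.card H := by
        intro H q hH ht
        rw [hn]
        exact Nat.find_min' htight ⟨H, q, rfl, hH, ht⟩
      have hi0 := hidx H0
      obtain ⟨z, hz, hzq⟩ : ∃ z ∈ M, z - q0 ∈ H0 := by
        by_contra hcon
        push Not at hcon
        have : miss M H0 q0 = M.card := by
          unfold miss
          rw [Multiset.countP_eq_card]
          exact hcon
        omega
      refine ⟨z, hz, ?_⟩
      intro H1 hH1 q1
      have hS1 := hS H1 hH1 q1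
      by_cases hz1 : z - q1 ∈ H1
      · rw [miss_erase_of_mem M H1 q1 z hz hz1]
        exact hS1
      · have hge := miss_erase_ge M H1 q1 z hz
        by_cases ht1 : miss M H1 q1 + 1 = H1.index
        · exfalso
          have hi1 := hidx H1
          obtain ⟨m, hm, hm0, hm1⟩ := exists_common M H0 H1 q0 q1 (by omega)
          by_cases h01 : H0 ≤ H1
          · apply hz1
            have : z - q1 = ((z - q0) - (m - q0)) + (m - q1) := by abel
            rw [this]
            exact add_mem (sub_mem (h01 hzq) (h01 hm0)) hm1
          · by_cases h10 : H1 ≤ H0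
            · have h2 := two_index_le h10 h01
              have h3 := hmin H1 q1 hH1 ht1
              have h4 : Nat.card H0 * H0.index = Nat.card H1 * H1.index := by
                rw [AddSubgroup.card_mul_index, AddSubgroup.card_mul_index]
              have h5 : 0 < Nat.card H0 := Nat.card_pos
              have h6 : 0 < H0.index := Nat.pos_of_ne_zero AddSubgroup.index_ne_zero_of_finite
              have h7 : Nat.card H0 * (2 * H0.index) ≤ Nat.card H1 * H1.index := Nat.mul_le_mul h3 h2
              have h8 : 0 < Nat.card H0 * H0.index := Nat.mul_pos h5 h6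
              nlinarith
            · have h2 := index_add_le h01 h10
              have h3 := miss_inf_le M H0 H1 q0 q1 m hm0 hm1
              have h4 : H0 ⊓ H1 ≠ ⊤ := by
                intro h
                apply hH0
                rw [eq_top_iff, ← h]
                exact inf_le_left
              have h5 := hS (H0 ⊓ H1) h4 m
              omega
        · omega
    · push Not at htight
      obtain ⟨z, hz⟩ : ∃ z, z ∈ M := by
        apply Multiset.exists_mem_of_ne_zero
        rintro rfl
        simp at hM
      refine ⟨z, hz, ?_⟩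
      intro H hH q
      have h1 := htight _ H q rfl hH
      have h2 := hS H hH q
      have h3 := miss_erase_ge M H q z hz
      omega

lemma exists_le_card (S : Multiset G) (n : ℕ) (h : n ≤ S.card) : ∃ D ≤ S, D.card = n := by
  induction S using Quotient.inductionOn with
  | h l =>
    refine ⟨↑(l.take n), ?_, ?_⟩
    · exact Multiset.coe_le.mpr (List.take_sublist _ _).subperm
    · have hle' : n ≤ l.length := h
      rw [Multiset.coe_card, List.length_take]
      omega

/-- If every coset of every proper subgroup misses many elements of `M`, then all elements of `G` are sums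
of `L`-element sub-multisets, for every `L` with `|G| - 1 ≤ L ≤ |M| - |G| + 1`. -/
theorem spread_sum {N : ℕ} (hG : Fintype.card G = N + 1) (M : Multiset G) (L : ℕ) (hL : N ≤ L)
    (hM : L + N ≤ M.card) (hS : Spread M) (t : G) : ∃ K ≤ M, K.card = L ∧ K.sum = t := by
  obtain ⟨M0, hM0, hc0, hS0⟩ := select hG (M.card - 2 * N) M (by omega) hS
  have h1 : (M - M0).card = M.card - 2 * N := by
    rw [Multiset.card_sub hM0, hc0]
  obtain ⟨D, hD, hDc⟩ : ∃ D ≤ M - M0, D.card = L - N := exists_le_card (M - M0) (L - N) (by omega)
  obtain ⟨K0, hK0, hK0c, hK0s⟩ := pairing_sum hG M0 hc0 hS0 (t - D.sum)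
  refine ⟨K0 + D, ?_, ?_, ?_⟩
  · calc K0 + D ≤ M0 + (M - M0) := add_le_add hK0 hD
      _ = M := by rw [add_comm]; exact Multiset.sub_add_cancel hM0
  · rw [Multiset.card_add, hK0c, hDc]
    omega
  · rw [Multiset.sum_add, hK0s]
    abel

end choose

end Pool.Agent.Hhelper51.ZeroSum
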