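import Mathlib
import Pool.Agent.Hhelper51.ZeroSumSelect

/-!
The dichotomy: a zero sum of `L + 1` elements containing a prescribed one, or a coset which avoids the prescribed
element and contains nearly everything else.
-/

set_option linter.unusedSectionVars false

open Finset
open scoped Pointwise

universe u

namespace Pool.Agent.Hhelper51.ZeroSum

lemma arith1 (h k n : ℕ) (hh : 1 ≤ h) (hk : 1 ≤ k) (hn : h * k = n) : h + k ≤ n + 1 := by
  subst hn
  obtain ⟨a, rfl⟩ : ∃ a, h = a + 1 := ⟨h - 1, by omega⟩
  obtain ⟨b, rfl⟩ : ∃ b, k = b + 1 := ⟨k - 1, by omega⟩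
  nlinarith [Nat.zero_le (a * b)]

theorem dichotomy0 (n : ℕ) : ∀ (G : Type u) [AddCommGroup G] [DecidableEq G] [Fintype G],
    Fintype.card G = n → ∀ (L : ℕ) (M : Multiset G), n - 1 ≤ L → n ∣ L + 1 → L + (n - 1) ≤ M.card →
    (∃ K ≤ M, K.card = L ∧ K.sum = 0) ∨
      ∃ H : AddSubgroup G, H ≠ ⊤ ∧ ∃ q : G, q ∉ H ∧ miss M H q + 2 ≤ H.index := by
  induction n using Nat.strong_induction_on with
  | _ n ih =>
    intro G _ _ _ hG L M hL hdvd hM
    classical
    have hnpos : 0 < n := by
      rw [← hG]
      exact Fintype.card_pos
    by_cases hS : Spread M
    · left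
      exact spread_sum (N := n - 1) (by omega) M L hL hM hS 0
    · unfold Spread at hS
      push Not at hS
      obtain ⟨H, hH, q, hq⟩ := hS
      by_cases hqH : q ∈ H
      swap
      · right
        exact ⟨H, hH, q, hqH, by omega⟩
      have hm0 : miss M H 0 ≤ miss M H q := miss_mono le_rfl (by rwa [sub_zero])
      set k := H.index with hk
      set h := Nat.card H with hh
      have hLag : h * k = n := by
        rw [hh, hk, AddSubgroup.card_mul_index, Nat.card_eq_fintype_card, hG]
      have hhpos : 1 ≤ h := Nat.card_pos
      have hkpos : 1 ≤ k := Nat.one_le_iff_ne_zero.mpr AddSubgroup.index_ne_zero_of_finite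
      have hk2 : 2 ≤ k := by
        have := AddSubgroup.one_lt_index_of_ne_top hH
        omega
      have hlt : h < n := by
        rw [← hLag]
        nlinarith
      have harith := arith1 h k n hhpos hkpos hLag
      -- lift the part inside `H`
      obtain ⟨M', hM'⟩ : ∃ M' : Multiset H, M'.map (fun x : H => (x : G)) = M.filter (fun m => m ∈ H) := by
        lift M.filter (fun m => m ∈ H) to Multiset H using (by
          intro x hx
          exact (Multiset.mem_filter.mp hx).2) with M' hM'
        exact ⟨M', rfl⟩
      have hsplit : M.filter (fun m => m ∈ H) + M.filter (fun m => m ∉ H) = M :=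
        Multiset.filter_add_not _ _
      have hmissH : miss M H 0 = (M.filter (fun m => m ∉ H)).card := by
        unfold miss
        rw [Multiset.countP_eq_card_filter]
        simp only [sub_zero]
      have hcardM' : M'.card + miss M H 0 = M.card := by
        have h1 : M'.card = (M.filter (fun m => m ∈ H)).card := by
          rw [← hM', Multiset.card_map]
        rw [h1, hmissH, ← Multiset.card_add, hsplit]
      have hres := ih h hlt H (by rw [← Nat.card_eq_fintype_card]) L M' (by omega)
        ((Dvd.intro _ hLag).trans hdvd) (by omega)
      rcases hres with ⟨K', hK', hKc, hKs⟩ | ⟨H', hH', q', hq', hmiss'⟩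
      · left
        refine ⟨K'.map (fun x : H => (x : G)), ?_, ?_, ?_⟩
        · calc K'.map (fun x : H => (x : G)) ≤ M'.map (fun x : H => (x : G)) := Multiset.map_le_map hK'
            _ ≤ M := by rw [hM']; exact Multiset.filter_le _ _
        · rw [Multiset.card_map, hKc]
        · have h1 : (K'.map (fun x : H => (x : G))).sum = ((K'.sum : H) : G) := by
            have := map_multiset_sum H.subtype K'
            simpa using this.symm
          rw [h1, hKs]
          rfl
      · right
        have hidx : (H'.map H.subtype).index = H'.index * H.index := AddSubgroup.index_map_subtype H'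
        have hj2 : 2 ≤ H'.index := by
          have := AddSubgroup.one_lt_index_of_ne_top hH'
          omega
        refine ⟨H'.map H.subtype, ?_, (q' : G), ?_, ?_⟩
        · intro htop
          apply hH
          rw [eq_top_iff, ← htop]
          exact AddSubgroup.map_subtype_le H'
        · intro hmem
          rw [AddSubgroup.mem_map] at hmem
          obtain ⟨x, hx, hxq⟩ := hmem
          apply hq'
          have : x = q' := Subtype.ext hxq
          rwa [← this]
        · have h1 : miss M (H'.map H.subtype) (q' : G) ≤ miss M H 0 + miss M' H' q' := by
            have h2 : miss M (H'.map H.subtype) (q' : G) =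
                miss (M.filter (fun m => m ∈ H)) (H'.map H.subtype) (q' : G) +
                miss (M.filter (fun m => m ∉ H)) (H'.map H.subtype) (q' : G) := by
              conv_lhs => rw [← hsplit]
              unfold miss
              rw [Multiset.countP_add]
            have h3 : miss (M.filter (fun m => m ∉ H)) (H'.map H.subtype) (q' : G) ≤ miss M H 0 := by
              rw [hmissH]
              exact Multiset.countP_le_card _ _
            have h4 : miss (M.filter (fun m => m ∈ H)) (H'.map H.subtype) (q' : G) ≤ miss M' H' q' := by
              rw [← hM']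
              unfold miss
              rw [Multiset.countP_map, Multiset.countP_eq_card_filter]
              apply Multiset.card_le_card
              apply Multiset.monotone_filter_right
              intro x hx hx'
              apply hx
              rw [AddSubgroup.mem_map]
              exact ⟨x - q', hx', rfl⟩
            omega
          rw [hidx]
          have := arith1 H'.index H.index _ (by omega) (by omega) rfl
          omega

theorem dichotomy {G : Type u} [AddCommGroup G] [DecidableEq G] [Fintype G] (L : ℕ) (M : Multiset G) (c0 : G)
    (hL : Fintype.card G - 1 ≤ L) (hdvd : Fintype.card G ∣ L + 1) (hM : L + (Fintype.card G - 1) ≤ M.card) :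
    (∃ K ≤ M, K.card = L ∧ c0 + K.sum = 0) ∨
      ∃ H : AddSubgroup G, ∃ q : G, c0 - q ∉ H ∧ miss M H q + 2 ≤ H.index := by
  classical
  have h := dichotomy0 (Fintype.card G) G rfl L (M.map (fun m => m - c0)) hL hdvd (by rwa [Multiset.card_map])
  rcases h with ⟨K, hK, hKc, hKs⟩ | ⟨H, hH, q, hq, hmiss⟩
  · left
    refine ⟨K.map (fun m => m + c0), ?_, ?_, ?_⟩
    · have h1 := Multiset.map_le_map (f := fun m : G => m + c0) hK
      rw [Multiset.map_map] at h1
      simpa using h1
    · rw [Multiset.card_map, hKc]
    · rw [Multiset.sum_map_add, Multiset.map_id', hKs, zero_add, Multiset.map_const', Multiset.sum_replicate,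
        hKc]
      have h1 : c0 + L • c0 = (L + 1) • c0 := by rw [succ_nsmul, add_comm]
      rw [h1]
      obtain ⟨r, hr⟩ := hdvd
      rw [hr, mul_comm, mul_nsmul', card_nsmul_eq_zero]
      simp
  · right
    refine ⟨H, q + c0, ?_, ?_⟩
    · intro hmem
      apply hq
      have : q = -(c0 - (q + c0)) := by abel
      rw [this]
      exact H.neg_mem hmem
    · have h1 : miss (M.map (fun m => m - c0)) H q = miss M H (q + c0) := by
        unfold miss
        rw [Multiset.countP_map, Multiset.countP_eq_card_filter]
        congr 1
        apply Multiset.filter_congr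
        intro x _
        have : x - c0 - q = x - (q + c0) := by abel
        rw [this]
      rw [← h1]
      exact hmiss

end Pool.Agent.Hhelper51.ZeroSum
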