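import Mathlib
import Pool.Agent.Hhelper51.ZeroSumDichotomy

/-!
Zero-sum double stars in edge colourings of complete bipartite graphs.
-/

set_option linter.unusedSectionVars false

open Finset
open scoped Pointwise

universe u

namespace Pool.Agent.Hhelper51.ZeroSum

variable {G : Type u} [AddCommGroup G] [DecidableEq G] [Fintype G]

open Classical in
/-- Number of values of `f` outside the coset `q + H`. -/
noncomputable def out {Y : Type*} [Fintype Y] (f : Y → G) (H : AddSubgroup G) (q : G) : ℕ :=
  (Finset.univ.filter (fun y => f y - q ∉ H)).card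

lemma index_le_card (H : AddSubgroup G) : H.index ≤ Fintype.card G := by
  rw [← Nat.card_eq_fintype_card]
  exact Nat.le_of_dvd Nat.card_pos (AddSubgroup.index_dvd_card H)

lemma not_small {H K : AddSubgroup G} (h : 2 * H.index ≤ K.index) : ¬ Nat.card H ≤ Nat.card K := by
  intro h3
  have h4 : Nat.card H * H.index = Nat.card K * K.index := by
    rw [AddSubgroup.card_mul_index, AddSubgroup.card_mul_index]
  have h5 : 0 < Nat.card H := Nat.card_pos
  have h6 : 0 < H.index := Nat.pos_of_ne_zero AddSubgroup.index_ne_zero_of_finite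
  have h7 : Nat.card H * (2 * H.index) ≤ Nat.card K * K.index := Nat.mul_le_mul h3 h
  have h8 : 0 < Nat.card H * H.index := Nat.mul_pos h5 h6
  nlinarith

open Classical in
lemma closing {Y : Type*} [Fintype Y] (f : Y → G) (α : ℕ → ℕ)
    (hsuper : ∀ t1 t2 t, t1 + t2 ≤ t → α t1 + α t2 ≤ α t)
    (hα : 2 * α (Fintype.card G) < Fintype.card Y) :
    (Finset.univ.filter (fun y => ∃ H : AddSubgroup G, ∃ q : G, out f H q ≤ α H.index ∧ f y - q ∉ H)).card
      ≤ α (Fintype.card G) := by
  have hmono : ∀ t, t ≤ Fintype.card G → α t ≤ α (Fintype.card G) := by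
    intro t ht
    have := hsuper t 0 (Fintype.card G) (by omega)
    omega
  have hne : ∃ n : ℕ, ∃ H : AddSubgroup G, ∃ q : G, Nat.card H = n ∧ out f H q ≤ α H.index := by
    refine ⟨_, ⊤, 0, rfl, ?_⟩
    have : out f ⊤ 0 = 0 := by
      unfold out
      rw [Finset.card_eq_zero, Finset.filter_eq_empty_iff]
      intro y _
      simp
    omega
  obtain ⟨H0, q0, hn, h0⟩ := Nat.find_spec hne
  have hmin : ∀ (H : AddSubgroup G) (q : G), out f H q ≤ α H.index → Nat.card H0 ≤ Nat.card H := by
    intro H q ht
    rw [hn]
    exact Nat.find_min' hne ⟨H, q, rfl, ht⟩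
  refine le_trans ?_ (h0.trans (hmono _ (index_le_card H0)))
  unfold out
  apply Finset.card_le_card
  intro y hy
  rw [Finset.mem_filter] at hy ⊢
  obtain ⟨_, H1, q1, h1, hy1⟩ := hy
  refine ⟨Finset.mem_univ _, ?_⟩
  intro hy0
  -- a common element
  obtain ⟨y', hy'0, hy'1⟩ : ∃ y', f y' - q0 ∈ H0 ∧ f y' - q1 ∈ H1 := by
    by_contra hcon
    push Not at hcon
    have hcover : (Finset.univ : Finset Y) ⊆ Finset.univ.filter (fun y => f y - q0 ∉ H0) ∪
        Finset.univ.filter (fun y => f y - q1 ∉ H1) := by
      intro z _
      rw [Finset.mem_union, Finset.mem_filter, Finset.mem_filter]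
      by_cases hz : f z - q0 ∈ H0
      · right
        exact ⟨Finset.mem_univ _, hcon z hz⟩
      · left
        exact ⟨Finset.mem_univ _, hz⟩
    have hcard := (Finset.card_le_card hcover).trans (Finset.card_union_le _ _)
    rw [Finset.card_univ] at hcard
    have e0 := h0.trans (hmono _ (index_le_card H0))
    have e1 := h1.trans (hmono _ (index_le_card H1))
    unfold out at e0 e1
    omega
  by_cases h01 : H0 ≤ H1
  · apply hy1
    have : f y - q1 = ((f y - q0) - (f y' - q0)) + (f y' - q1) := by abel
    rw [this]
    exact add_mem (sub_mem (h01 hy0) (h01 hy'0)) hy'1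
  · by_cases h10 : H1 ≤ H0
    · exact not_small (two_index_le h10 h01) (hmin H1 q1 h1)
    · have hidx := index_add_le h01 h10
      have h2 : 2 * H0.index ≤ (H0 ⊓ H1).index :=
        two_index_le inf_le_left (fun h => h01 (h.trans inf_le_right))
      apply not_small h2
      apply hmin (H0 ⊓ H1) (f y')
      calc out f (H0 ⊓ H1) (f y') ≤ out f H0 q0 + out f H1 q1 := by
            unfold out
            refine le_trans (Finset.card_le_card ?_) (Finset.card_union_le _ _)
            intro z hz
            rw [Finset.mem_filter] at hz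
            rw [Finset.mem_union, Finset.mem_filter, Finset.mem_filter]
            by_contra hcon
            push Not at hcon
            apply hz.2
            have hc0 := hcon.1 (Finset.mem_univ _)
            have hc1 := hcon.2 (Finset.mem_univ _)
            rw [AddSubgroup.mem_inf]
            constructor
            · have : f z - f y' = (f z - q0) - (f y' - q0) := by abel
              rw [this]
              exact sub_mem hc0 hy'0
            · have : f z - f y' = (f z - q1) - (f y' - q1) := by abel
              rw [this]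
              exact sub_mem hc1 hy'1
        _ ≤ α H0.index + α H1.index := add_le_add h0 h1
        _ ≤ _ := hsuper _ _ _ hidx

lemma exists_subset_of_le_map {ι : Type*} [DecidableEq ι] (S : Finset ι) (F : ι → G) (K : Multiset G)
    (hK : K ≤ S.val.map F) : ∃ S' ⊆ S, S'.val.map F = K := by
  obtain ⟨l, hl⟩ : ∃ l : List ι, S.val = ↑l := ⟨S.val.toList, (Multiset.coe_toList _).symm⟩
  rw [hl] at hK
  induction K using Quotient.inductionOn with
  | h k =>
    have hK' : (↑k : Multiset G) ≤ ↑(l.map F) := hK
    rw [Multiset.coe_le] at hK'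
    obtain ⟨k', hk', hsub⟩ := hK'
    rw [List.sublist_map_iff] at hsub
    obtain ⟨l', hl', rfl⟩ := hsub
    have hnodup : l.Nodup := by
      have := S.nodup
      rw [hl] at this
      exact this
    refine ⟨⟨↑l', hnodup.sublist hl'⟩, ?_, ?_⟩
    · intro x hx
      have hx' : x ∈ l' := hx
      show x ∈ S.val
      rw [hl]
      exact hl'.subset hx'
    · show (↑(l'.map F) : Multiset G) = ↑k
      exact Quotient.sound hk'

lemma alpha_super (p n : ℕ) : ∀ t1 t2 t, t1 + t2 ≤ t → p * t1 / n + p * t2 / n ≤ p * t / n := by
  intro t1 t2 t h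
  calc p * t1 / n + p * t2 / n ≤ (p * t1 + p * t2) / n := Nat.div_add_div_le_add_div
    _ ≤ _ := by
      apply Nat.div_le_div_right
      rw [← mul_add]
      exact Nat.mul_le_mul_left _ h

lemma beta_super (p n : ℕ) : ∀ t1 t2 t, t1 + t2 ≤ t → (p * t1 - 1) / n + (p * t2 - 1) / n ≤ (p * t - 1) / n := by
  intro t1 t2 t h
  calc (p * t1 - 1) / n + (p * t2 - 1) / n ≤ ((p * t1 - 1) + (p * t2 - 1)) / n := Nat.div_add_div_le_add_div
    _ ≤ _ := by
      apply Nat.div_le_div_right
      have : p * (t1 + t2) ≤ p * t := Nat.mul_le_mul_left _ h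
      rw [mul_add] at this
      omega

lemma split_threshold (a b t u v : ℕ) (hab : 0 < a + b) (h : u + v ≤ t) :
    u ≤ b * t / (a + b) ∨ v ≤ (a * t - 1) / (a + b) := by
  by_contra hcon
  push Not at hcon
  obtain ⟨h1, h2⟩ := hcon
  have h3 : b * t < u * (a + b) := by
    rwa [Nat.div_lt_iff_lt_mul hab] at h1
  have h4 : a * t - 1 < v * (a + b) := by
    rwa [Nat.div_lt_iff_lt_mul hab] at h2
  have h5 : (u + v) * (a + b) ≤ t * (a + b) := Nat.mul_le_mul_right _ h
  have h6 : t * (a + b) = a * t + b * t := by ring
  have h7 : (u + v) * (a + b) = u * (a + b) + v * (a + b) := by ring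
  omega

/-- Every colouring of `X × Y`, where `|X| = 2a - 1`, `|Y| = 2b - 1`, by a finite abelian group of order `a + b - 1`
has a zero-sum double star with `a + b - 1` edges. -/
theorem double_star {X Y : Type*} [Fintype X] [Fintype Y] [DecidableEq X] [DecidableEq Y] (a b : ℕ)
    (ha : 1 ≤ a) (hb : 1 ≤ b)
    (hX : Fintype.card X + 1 = 2 * a) (hY : Fintype.card Y + 1 = 2 * b) (hG : Fintype.card G + 1 = a + b)
    (c : X → Y → G) :
    ∃ x y, ∃ A ⊆ (Finset.univ : Finset X).erase x, ∃ B ⊆ (Finset.univ : Finset Y).erase y,
      A.card + B.card + 1 = Fintype.card G ∧ c x y + (∑ u ∈ A, c u y + ∑ v ∈ B, c x v) = 0 := by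
  classical
  by_contra hno
  push Not at hno
  set s := Fintype.card G with hs
  -- for every pair there is a coset which avoids `c x y` and contains nearly everything else
  have key : ∀ x y, ∃ H : AddSubgroup G, ∃ q : G, c x y - q ∉ H ∧
      out (fun v => c x v) H q + out (fun u => c u y) H q ≤ H.index := by
    intro x y
    set S : Finset (X ⊕ Y) := ((Finset.univ : Finset X).erase x).disjSum ((Finset.univ : Finset Y).erase y) with hS
    set F : X ⊕ Y → G := Sum.elim (fun u => c u y) (fun v => c x v) with hF
    have hScard : S.card = (s - 1) + (s - 1) := by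
      rw [hS, Finset.card_disjSum, Finset.card_erase_of_mem (Finset.mem_univ _),
        Finset.card_erase_of_mem (Finset.mem_univ _), Finset.card_univ, Finset.card_univ]
      omega
    have hspos : 0 < s := Fintype.card_pos
    rcases dichotomy (s - 1) (S.val.map F) (c x y) le_rfl
      (by rw [Nat.sub_add_cancel hspos]) (by rw [Multiset.card_map]; exact hScard.ge) with h | h
    · exfalso
      obtain ⟨K, hK, hKc, hKs⟩ := h
      obtain ⟨S', hS', hS'K⟩ := exists_subset_of_le_map S F K hK
      rw [hS, Finset.subset_disjSum] at hS'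
      refine hno x y S'.toLeft hS'.1 S'.toRight hS'.2 ?_ ?_
      · rw [Finset.card_toLeft_add_card_toRight]
        have : S'.card = s - 1 := by
          rw [← hKc, ← hS'K, Multiset.card_map]
          rfl
        omega
      · rw [← hKs, ← hS'K]
        congr 1
        have h1 : (S'.val.map F).sum = ∑ i ∈ S', F i := rfl
        rw [h1]
        conv_rhs => rw [← Finset.toLeft_disjSum_toRight (u := S')]
        rw [Finset.sum_disjSum]
        simp [hF]
    · obtain ⟨H, q, hq, hm⟩ := h
      refine ⟨H, q, hq, ?_⟩
      have h1 : miss (S.val.map F) H q =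
          (((Finset.univ : Finset X).erase x).filter (fun u => c u y - q ∉ H)).card +
          (((Finset.univ : Finset Y).erase y).filter (fun v => c x v - q ∉ H)).card := by
        unfold miss
        rw [Multiset.countP_map]
        have h2 : (Multiset.filter (fun a => F a - q ∉ H) S.val) = (S.filter (fun a => F a - q ∉ H)).val := rfl
        rw [h2]
        have h3 : (S.filter (fun a => F a - q ∉ H)).val.card = (S.filter (fun a => F a - q ∉ H)).card := rfl
        rw [h3, ← Finset.card_toLeft_add_card_toRight]
        congr 1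
        · congr 1
          ext u
          simp [hS, hF]
        · congr 1
          ext v
          simp [hS, hF]
      have hX1 : out (fun v => c x v) H q =
          (((Finset.univ : Finset Y).erase y).filter (fun v => c x v - q ∉ H)).card + 1 := by
        unfold out
        rw [← Finset.insert_erase (Finset.mem_univ y), Finset.filter_insert, if_pos hq,
          Finset.card_insert_of_notMem (by simp)]
        simp
      have hY1 : out (fun u => c u y) H q =
          (((Finset.univ : Finset X).erase x).filter (fun u => c u y - q ∉ H)).card + 1 := by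
        unfold out
        rw [← Finset.insert_erase (Finset.mem_univ x), Finset.filter_insert, if_pos hq,
          Finset.card_insert_of_notMem (by simp)]
        simp
      omega
  set α : ℕ → ℕ := fun t => b * t / (a + b) with hα
  set β : ℕ → ℕ := fun t => (a * t - 1) / (a + b) with hβ
  have hab : 0 < a + b := by omega
  have hαs : α s + 1 ≤ b := by
    have : b * s / (a + b) < b := by
      rw [Nat.div_lt_iff_lt_mul hab]
      apply Nat.mul_lt_mul_of_pos_left _ hb
      omega
    simpa [hα] using this
  have hβs : β s + 1 ≤ a := by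
    have : (a * s - 1) / (a + b) < a := by
      rw [Nat.div_lt_iff_lt_mul hab]
      have h1 : a * s < a * (a + b) := by
        apply Nat.mul_lt_mul_of_pos_left _ ha
        omega
      omega
    simpa [hβ] using this
  set P : X → Finset Y := fun x => Finset.univ.filter
    (fun y => ∃ H : AddSubgroup G, ∃ q : G, out (fun v => c x v) H q ≤ α H.index ∧ c x y - q ∉ H) with hP
  set Q : Y → Finset X := fun y => Finset.univ.filter
    (fun x => ∃ H : AddSubgroup G, ∃ q : G, out (fun u => c u y) H q ≤ β H.index ∧ c x y - q ∉ H) with hQ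
  have hPc : ∀ x, (P x).card ≤ α s := by
    intro x
    exact closing (fun v => c x v) α (alpha_super b (a + b)) (by rw [← hs]; omega)
  have hQc : ∀ y, (Q y).card ≤ β s := by
    intro y
    exact closing (fun u => c u y) β (beta_super a (a + b)) (by rw [← hs]; omega)
  have hcover : ∀ x y, y ∈ P x ∨ x ∈ Q y := by
    intro x y
    obtain ⟨H, q, hq, hout⟩ := key x y
    rcases split_threshold a b H.index _ _ hab hout with h | h
    · left
      rw [hP, Finset.mem_filter]
      exact ⟨Finset.mem_univ _, H, q, h, hq⟩
    · right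
      rw [hQ, Finset.mem_filter]
      exact ⟨Finset.mem_univ _, H, q, h, hq⟩
  -- double counting
  have hcount : Fintype.card X * Fintype.card Y ≤ Fintype.card X * α s + Fintype.card Y * β s := by
    have h1 : (Finset.univ : Finset (X × Y)) ⊆
        (((Finset.univ : Finset X).sigma (fun x => P x)).image (fun z => (z.1, z.2))) ∪
        (((Finset.univ : Finset Y).sigma (fun y => Q y)).image (fun z => (z.2, z.1))) := by
      intro z _
      rw [Finset.mem_union, Finset.mem_image, Finset.mem_image]
      rcases hcover z.1 z.2 with h | h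
      · left
        exact ⟨⟨z.1, z.2⟩, by simpa using h, rfl⟩
      · right
        exact ⟨⟨z.2, z.1⟩, by simpa using h, rfl⟩
    have h2 := (Finset.card_le_card h1).trans (Finset.card_union_le _ _)
    rw [Finset.card_univ, Fintype.card_prod] at h2
    refine h2.trans (add_le_add ?_ ?_)
    · refine Finset.card_image_le.trans ?_
      rw [Finset.card_sigma]
      calc ∑ x : X, (P x).card ≤ ∑ _x : X, α s := Finset.sum_le_sum (fun x _ => hPc x)
        _ = _ := by simp
    · refine Finset.card_image_le.trans ?_
      rw [Finset.card_sigma]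
      calc ∑ y : Y, (Q y).card ≤ ∑ _y : Y, β s := Finset.sum_le_sum (fun y _ => hQc y)
        _ = _ := by simp
  have e1 : Fintype.card X = 2 * a - 1 := by omega
  have e2 : Fintype.card Y = 2 * b - 1 := by omega
  obtain ⟨a', rfl⟩ : ∃ a', a = a' + 1 := ⟨a - 1, by omega⟩
  obtain ⟨b', rfl⟩ : ∃ b', b = b' + 1 := ⟨b - 1, by omega⟩
  have e1' : Fintype.card X = 2 * a' + 1 := by omega
  have e2' : Fintype.card Y = 2 * b' + 1 := by omega
  rw [e1', e2'] at hcount
  have h3 : (2 * a' + 1) * α s ≤ (2 * a' + 1) * b' := Nat.mul_le_mul_left _ (by omega)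
  have h4 : (2 * b' + 1) * β s ≤ (2 * b' + 1) * a' := Nat.mul_le_mul_left _ (by omega)
  nlinarith

end Pool.Agent.Hhelper51.ZeroSum
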